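import Pool.Agent.Helper69.GC.Defs

/-!
# Module COPY: disjoint copies and isolated vertices
-/

set_option autoImplicit false

namespace Pool.Agent.Helper69.GC

/-- `M` disjoint copies of `G` -/
def copyGraph {V : Type} (G : SimpleGraph V) (M : ℕ) : SimpleGraph (V × Fin M) where
  Adj a b := G.Adj a.1 b.1 ∧ a.2 = b.2
  symm := ⟨fun _ _ h => ⟨h.1.symm, h.2.symm⟩⟩
  loopless := ⟨fun _ h => G.loopless.irrefl _ h.1⟩

theorem copy_nbr {V : Type} (G : SimpleGraph V) (M : ℕ) (a : V × Fin M) :
    (copyGraph G M).neighborSet a = (fun w => (w, a.2)) '' G.neighborSet a.1 := by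
  ext b
  simp only [SimpleGraph.mem_neighborSet, Set.mem_image]
  constructor
  · intro h
    exact ⟨b.1, h.1, Prod.ext rfl h.2⟩
  · rintro ⟨w, hw, rfl⟩
    exact ⟨hw, rfl⟩

theorem copy_nbr_card {V : Type} (G : SimpleGraph V) (M : ℕ) (a : V × Fin M) :
    ((copyGraph G M).neighborSet a).ncard = (G.neighborSet a.1).ncard := by
  rw [copy_nbr]
  exact Set.ncard_image_of_injective _ (fun x y h => congrArg Prod.fst h)

theorem copy_NB {V W : Type} {G : SimpleGraph V} {k M : ℕ} (hNB : NB G k)
    (emb : V × Fin M ↪ W) : NB ((copyGraph G M).map emb) k := by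
  intro L v h1 h2 hadj hne hper
  have hx : ∀ i, ∃ x, emb x = v i := by
    intro i
    have h := hadj i
    rw [SimpleGraph.map_adj] at h
    obtain ⟨x, y, _, hx, _⟩ := h
    exact ⟨x, hx⟩
  choose x hx using hx
  have hK : ∀ i, (copyGraph G M).Adj (x i) (x (i + 1)) := by
    intro i
    have h := hadj i
    rw [← hx i, ← hx (i + 1), SimpleGraph.map_adj_apply] at h
    exact h
  apply hNB L (fun i => (x i).1) h1 h2
  · intro i
    exact (hK i).1
  · intro i h
    apply hne i
    rw [← hx i, ← hx (i + 2)]
    congr 1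
    apply Prod.ext h
    exact (hK i).2.trans (hK (i + 1)).2
  · intro i
    have : x (i + L) = x i := by
      apply emb.injective
      rw [hx, hx, hper]
    simp only [this]

theorem copy_two_mul_edges {V : Type} [Finite V] (G : SimpleGraph V) (q : ℕ)
    (hq : ∀ v : V, (G.neighborSet v).ncard = q) :
    Nat.card V * q = 2 * G.edgeSet.ncard := by
  classical
  have := Fintype.ofFinite V
  have h := G.sum_degrees_eq_twice_card_edges
  have hd : ∀ v, G.degree v = q := by
    intro v
    rw [← hq v, ← SimpleGraph.card_neighborSet_eq_degree, Set.ncard_eq_toFinset_card',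
      Set.toFinset_card]
  simp only [hd, Finset.sum_const, smul_eq_mul, Finset.card_univ] at h
  rw [Nat.card_eq_fintype_card, h, Set.ncard_eq_toFinset_card', ← SimpleGraph.edgeFinset]

theorem st_COPY : ST_COPY := by
  intro V _ _ G k q n hq hNB hn
  classical
  have := Fintype.ofFinite V
  have hcpos : 0 < Nat.card V := Nat.card_pos
  have hle : Fintype.card (V × Fin (n / Nat.card V)) ≤ Fintype.card (Fin n) := by
    rw [Fintype.card_prod, Fintype.card_fin, Fintype.card_fin, ← Nat.card_eq_fintype_card]
    exact Nat.mul_div_le n _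
  obtain ⟨emb⟩ := Function.Embedding.nonempty_of_card_le hle
  refine ⟨(copyGraph G (n / Nat.card V)).map emb, copy_NB hNB emb, ?_⟩
  have he : ((copyGraph G (n / Nat.card V)).map emb).edgeSet.ncard =
      (copyGraph G (n / Nat.card V)).edgeSet.ncard := by
    rw [SimpleGraph.edgeSet_map]
    exact Set.ncard_image_of_injective _ emb.sym2Map.injective
  have h2 := copy_two_mul_edges (copyGraph G (n / Nat.card V)) q
    (fun a => (copy_nbr_card G _ a).trans (hq a.1))
  rw [he]
  have h3 : Nat.card (V × Fin (n / Nat.card V)) = Nat.card V * (n / Nat.card V) := by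
    rw [Nat.card_prod, Nat.card_eq_fintype_card (α := Fin (n / Nat.card V)), Fintype.card_fin]
  rw [h3] at h2
  have h4 : n < Nat.card V * (n / Nat.card V + 1) := by
    have := Nat.lt_mul_div_succ n hcpos
    exact this
  have h5 : 1 ≤ n / Nat.card V := (Nat.one_le_div_iff hcpos).2 hn
  have h6 : n ≤ 2 * (Nat.card V * (n / Nat.card V)) := by
    have h7 : Nat.card V * (n / Nat.card V + 1) ≤ 2 * (Nat.card V * (n / Nat.card V)) := by
      nlinarith
    omega
  calc n * q ≤ 2 * (Nat.card V * (n / Nat.card V)) * q := Nat.mul_le_mul_right q h6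
    _ = 2 * (Nat.card V * (n / Nat.card V) * q) := by ring
    _ = 2 * (2 * (copyGraph G (n / Nat.card V)).edgeSet.ncard) := by rw [h2]
    _ = 4 * (copyGraph G (n / Nat.card V)).edgeSet.ncard := by ring

end Pool.Agent.Helper69.GC
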